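import Pool.Agent.W862.LE.Gr

/-!
# Signs of edge colourings of regular graphs and Kempe changes

A Kempe change (exchange of two colours on some components of the subgraph of the edges with these
colours) does not change the product of the signs of a proper edge colouring of a regular graph with
`d` colours: the number of the vertices at which the colours are exchanged is twice the number of the
exchanged edges of the first colour.
-/

set_option autoImplicit false

namespace Pool.Agent.TH347.KS

open Finset Pool.Agent.W426.LE Pool.Agent.W862.LE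

section
variable {V : Type} (G : SimpleGraph V) {d : ℕ}

/-- `y` arises from `x` by exchanging two colours on some edges (Kempe changes with two fixed
colours); both are proper colourings. -/
def Step (x y : G.lineGraph.Coloring (Fin d)) : Prop :=
  ∃ i j : Fin d, ∀ e, y e = x e ∨ y e = Equiv.swap i j (x e)

variable [Fintype V] (inc : V → Fin d → G.edgeSet)
  (h1 : ∀ v i, v ∈ (inc v i : Sym2 V))
  (h2 : ∀ v (e : G.edgeSet), v ∈ (e : Sym2 V) → ∃ i, inc v i = e)
  (h3 : ∀ v, Function.Injective (inc v))

omit [Fintype V] in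
include h1 h3 in
lemma prp_col (x : G.lineGraph.Coloring (Fin d)) : Abs.Prp inc x := by
  intro v
  refine Finite.injective_iff_bijective.1 ?_
  intro i j hij
  by_contra hne
  refine x.valid ?_ hij
  rw [SimpleGraph.lineGraph_adj_iff_exists]
  exact ⟨fun h => hne (h3 v h), v, h1 v i, h1 v j⟩

omit [Fintype V] in
include h2 in
lemma col_prp (x : G.edgeSet → Fin d) (hx : Abs.Prp inc x) (e e' : G.edgeSet)
    (h : G.lineGraph.Adj e e') : x e ≠ x e' := by
  rw [SimpleGraph.lineGraph_adj_iff_exists] at h
  obtain ⟨hne, v, hv, hv'⟩ := h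
  obtain ⟨i, hi⟩ := h2 v e hv
  obtain ⟨j, hj⟩ := h2 v e' hv'
  intro hxe
  rw [← hi, ← hj] at hxe
  have h5 : i = j := (hx v).1 hxe
  apply hne
  rw [← hi, ← hj, h5]

/-- two bijections which differ by exchanges of `i` and `j` -/
lemma local_step {i j : Fin d} (hij : i ≠ j) (f g : Fin d → Fin d) (hf : Function.Bijective f)
    (hg : Function.Bijective g) (h : ∀ k, g k = f k ∨ g k = Equiv.swap i j (f k)) (a : Fin d)
    (ha : f a = i) :
    (g a = j ∧ g = fun k => Equiv.swap i j (f k)) ∨ (g a ≠ j ∧ g = f) := by
  obtain ⟨b, hb⟩ := hf.2 j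
  have hab : a ≠ b := by
    rintro rfl
    exact hij (ha.symm.trans hb)
  have hga := h a
  have hgb := h b
  rw [ha, Equiv.swap_apply_left] at hga
  rw [hb, Equiv.swap_apply_right] at hgb
  have hne : g a ≠ g b := fun h' => hab (hg.1 h')
  have hoth : ∀ k, f k ≠ i → f k ≠ j → g k = f k := by
    intro k hk1 hk2
    rcases h k with h' | h'
    · exact h'
    · rw [h', Equiv.swap_apply_of_ne_of_ne hk1 hk2]
  rcases hga with hga | hga
  · right
    refine ⟨by rw [hga]; exact hij, funext fun k => ?_⟩
    by_cases hk1 : f k = i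
    · have : k = a := hf.1 (hk1.trans ha.symm)
      rw [this, hga, ha]
    · by_cases hk2 : f k = j
      · have hkb : k = b := hf.1 (hk2.trans hb.symm)
        rw [hkb, hb]
        rcases hgb with h' | h'
        · exact h'
        · exact absurd (hga.trans h'.symm) hne
      · exact hoth k hk1 hk2
  · left
    refine ⟨hga, funext fun k => ?_⟩
    by_cases hk1 : f k = i
    · have : k = a := hf.1 (hk1.trans ha.symm)
      rw [this, hga, ha, Equiv.swap_apply_left]
    · by_cases hk2 : f k = j
      · have hkb : k = b := hf.1 (hk2.trans hb.symm)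
        rw [hkb, hb, Equiv.swap_apply_right]
        rcases hgb with h' | h'
        · exact absurd (hga.trans h'.symm) hne
        · exact h'
      · rw [hoth k hk1 hk2, Equiv.swap_apply_of_ne_of_ne hk1 hk2]

include h1 h2 h3 in
/-- a step does not change the product of the signs -/
theorem wt_step (x y : G.lineGraph.Coloring (Fin d)) (h : Step G x y) :
    Abs.wt (Equiv.refl (Fin d)) inc x = Abs.wt (Equiv.refl (Fin d)) inc y := by
  classical
  obtain ⟨i, j, hxy⟩ := h
  by_cases hij : i = j
  · subst hij
    have e1 : (x : G.edgeSet → Fin d) = y := funext fun e => by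
      rcases hxy e with h | h
      · exact h.symm
      · rw [Equiv.swap_self] at h
        exact h.symm
    unfold Abs.wt
    refine Finset.prod_congr rfl fun v _ => ?_
    congr 1
    funext k
    exact congrFun e1 _
  have hpx := prp_col G inc h1 h3 x
  have hpy := prp_col G inc h1 h3 y
  choose a ha using fun v => (hpx v).2 i
  have ha' : ∀ v, x (inc v (a v)) = i := ha
  have hloc : ∀ v, (y (inc v (a v)) = j ∧ (fun k => y (inc v k)) =
      fun k => Equiv.swap i j (x (inc v k))) ∨
      (y (inc v (a v)) ≠ j ∧ (fun k => y (inc v k)) = fun k => x (inc v k)) := fun v =>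
    local_step hij (fun k => x (inc v k)) (fun k => y (inc v k)) (hpx v) (hpy v)
      (fun k => hxy _) (a v) (ha' v)
  set o : V → V := fun v => Sym2.Mem.other (h1 v (a v)) with ho
  have hpo : ∀ v, (inc v (a v) : Sym2 V) = s(v, o v) := fun v =>
    (Sym2.other_spec (h1 v (a v))).symm
  have hov : ∀ v, o v ≠ v := by
    intro v hv
    have h5 := (inc v (a v)).2
    rw [hpo v, SimpleGraph.mem_edgeSet, hv] at h5
    exact G.loopless.irrefl v h5
  have hpp : ∀ v, inc (o v) (a (o v)) = inc v (a v) := by
    intro v
    obtain ⟨k, hk⟩ := h2 (o v) (inc v (a v)) (by rw [hpo v]; exact Sym2.mem_mk_right _ _)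
    have h5 : x (inc (o v) k) = x (inc (o v) (a (o v))) := by rw [hk, ha' v, ha' (o v)]
    have h6 : k = a (o v) := (hpx (o v)).1 h5
    rw [← h6, hk]
  have hoo : ∀ v, o (o v) = v := by
    intro v
    have h5 : s(o v, o (o v)) = s(o v, v) := by
      rw [← hpo (o v), hpp v, hpo v]
      exact Sym2.eq_swap
    exact Sym2.congr_right.1 h5
  have hsw : ∀ (D1 : DecidableEq (Fin d)) (D2 : Fintype (Fin d)),
      @Equiv.Perm.sign (Fin d) D1 D2 (@Equiv.swap (Fin d) (instDecidableEqFin d) i j) = -1 := by
    intro D1 D2
    have e1 : D1 = instDecidableEqFin d := Subsingleton.elim _ _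
    have e2 : D2 = Fin.fintype d := Subsingleton.elim _ _
    subst e1
    subst e2
    exact Equiv.Perm.sign_swap hij
  have hsg : ∀ v, sg (Equiv.refl (Fin d)) (fun k => y (inc v k)) =
      (if y (inc v (a v)) = j then -1 else 1) *
        sg (Equiv.refl (Fin d)) (fun k => x (inc v k)) := by
    intro v
    rcases hloc v with ⟨h5, h6⟩ | ⟨h5, h6⟩
    · rw [if_pos h5, h6, sg_perm_comp, hsw]
      norm_num
    · rw [if_neg h5, h6, one_mul]
  have hprod : ∏ v : V, (if y (inc v (a v)) = j then (-1 : ℤ) else 1) = 1 := by
    refine Finset.prod_involution (fun v _ => o v) ?_ ?_ ?_ ?_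
    · intro v _
      rw [hpp v]
      split_ifs <;> norm_num
    · intro v _ _
      exact hov v
    · intro v _
      exact mem_univ _
    · intro v _
      exact hoo v
  unfold Abs.wt
  rw [Finset.prod_congr rfl fun v _ => hsg v, Finset.prod_mul_distrib, hprod, one_mul]

include h1 h2 h3 in
theorem wt_kempe (x y : G.lineGraph.Coloring (Fin d)) (h : Relation.EqvGen (Step G) x y) :
    Abs.wt (Equiv.refl (Fin d)) inc x = Abs.wt (Equiv.refl (Fin d)) inc y := by
  induction h with
  | rel x y h => exact wt_step G inc h1 h2 h3 x y h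
  | refl x => rfl
  | symm x y _ ih => exact ih.symm
  | trans x y z _ _ ih1 ih2 => exact ih1.trans ih2

end

end Pool.Agent.TH347.KS
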