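import Pool.Agent.TH347.KS.Kempe

set_option autoImplicit false

namespace Pool.Agent.TH347.KS

open Finset Pool.Agent.W426.LE Pool.Agent.W862.LE

section
variable {V P : Type} [Group P] [MulAction P V] (G : SimpleGraph V)
  (hG : ∀ (a : P) (u v : V), G.Adj (a • u) (a • v) ↔ G.Adj u v) {d : ℕ}

/-- invariant under `P` up to permutations of the colours -/
def Inv (x : G.edgeSet → Fin d) : Prop :=
  ∀ a : P, ∃ σ : Equiv.Perm (Fin d), ∀ e, x (eact G hG a e) = σ (x e)

/-- the partitions of the edges given by the invariant colourings -/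
def Facs (d : ℕ) : Set (Setoid G.edgeSet) :=
  {r | ∃ x : G.lineGraph.Coloring (Fin d), Inv G hG (x : G.edgeSet → Fin d) ∧ r = Setoid.ker x}

/-- normalised invariant proper colourings -/
def Nrm (inc : V → Fin d → G.edgeSet) (v0 : V) : Set (G.edgeSet → Fin d) :=
  {x | Abs.Prp inc x ∧ (∀ i, x (inc v0 i) = i) ∧ Inv G hG x}

variable [Finite V] (inc : V → Fin d → G.edgeSet)
  (h1 : ∀ v i, v ∈ (inc v i : Sym2 V))
  (h2 : ∀ v (e : G.edgeSet), v ∈ (e : Sym2 V) → ∃ i, inc v i = e)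
  (h3 : ∀ v, Function.Injective (inc v)) (v0 : V)

omit [Finite V] in
include h1 h2 h3 in
lemma facs_eq : Facs G hG d = (fun x : G.edgeSet → Fin d => Setoid.ker x) '' Nrm G hG inc v0 := by
  ext r
  constructor
  · rintro ⟨x, hx, rfl⟩
    have hp := prp_col G inc h1 h3 x
    obtain ⟨σ, hσ⟩ := Abs.nrm_spec (Equiv.refl (Fin d)) inc v0 x hp
    set z := Abs.nrm (Equiv.refl (Fin d)) inc v0 x hp with hz
    refine ⟨z.1, ⟨z.2.1, fun i => z.2.2 i, fun a => ?_⟩, ?_⟩
    · obtain ⟨τ, hτ⟩ := hx a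
      refine ⟨σ * τ * σ⁻¹, fun e => ?_⟩
      rw [hσ, hσ, hτ]
      simp
    · refine Setoid.ext fun e e' => ?_
      show z.1 e = z.1 e' ↔ x e = x e'
      rw [hσ, hσ]
      exact σ.injective.eq_iff
  · rintro ⟨x, ⟨hx1, hx2, hx3⟩, rfl⟩
    exact ⟨SimpleGraph.Coloring.mk x fun h => col_prp G inc h2 x hx1 _ _ h, hx3, rfl⟩

omit [Finite V] in
lemma ker_injOn : Set.InjOn (fun x : G.edgeSet → Fin d => Setoid.ker x) (Nrm G hG inc v0) := by
  intro x hx y hy hxy
  funext e
  have h4 : Setoid.ker x (inc v0 (x e)) e := hx.2.1 (x e)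
  have h5 : Setoid.ker y (inc v0 (x e)) e := by
    have h6 : Setoid.ker x = Setoid.ker y := hxy
    rw [← h6]
    exact h4
  have h7 : y (inc v0 (x e)) = y e := h5
  rw [← h7]
  exact (hy.2.1 (x e)).symm

omit [Finite V] in
include h1 h2 h3 in
lemma facs_ncard : (Facs G hG d).ncard = (Nrm G hG inc v0).ncard := by
  rw [facs_eq G hG inc h1 h2 h3 v0]
  exact Set.ncard_image_of_injOn (ker_injOn G hG inc v0)

end

section
variable {V : Type} [Finite V] (G : SimpleGraph V) {d : ℕ}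

lemma exists_inc' (hd : ∀ v, (G.neighborSet v).ncard = d) : ∃ inc : V → Fin d → G.edgeSet,
    (∀ v i, v ∈ (inc v i : Sym2 V)) ∧
    (∀ v (e : G.edgeSet), v ∈ (e : Sym2 V) → ∃ i, inc v i = e) ∧
    ∀ v, Function.Injective (inc v) := by
  classical
  have := Fintype.ofFinite V
  refine exists_inc G fun v => ?_
  rw [← hd v, ← SimpleGraph.card_neighborSet_eq_degree, Set.ncard_eq_toFinset_card',
    Set.toFinset_card]

/-- **Kempe equivalence and `p`-groups** -/
theorem EL_kempe {P : Type} [Group P] [Finite P] [MulAction P V] [Nonempty V]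
    (hG : ∀ (a : P) (u v : V), G.Adj (a • u) (a • v) ↔ G.Adj u v) (p : ℕ) [Fact p.Prime]
    (hP : IsPGroup p P) (hd : ∀ v, (G.neighborSet v).ncard = d)
    (hK : ∀ x y : G.lineGraph.Coloring (Fin d), Inv G hG (x : G.edgeSet → Fin d) →
      Inv G hG (y : G.edgeSet → Fin d) → Relation.EqvGen (Step G) x y)
    (hN : ¬ p ∣ (Facs G hG d).ncard) : EL.EL G d := by
  classical
  have := Fintype.ofFinite V
  have := Fintype.ofFinite P
  obtain ⟨inc, h1, h2, h3⟩ := exists_inc' G hd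
  obtain ⟨v0⟩ := ‹Nonempty V›
  rw [facs_ncard G hG inc h1 h2 h3 v0] at hN
  have hfin : (Nrm G hG inc v0).Finite := Set.toFinite _
  have key := gr_EL G inc h1 h2 h3 hG v0 p hP hfin.toFinset (fun x hx => by
    rw [Set.Finite.mem_toFinset]
    exact ⟨fun h => ⟨h.2.1, h.2.2⟩, fun h => ⟨hx, h.1, h.2⟩⟩) (by
    have hne : (Nrm G hG inc v0).Nonempty := by
      by_contra h
      rw [Set.not_nonempty_iff_eq_empty] at h
      rw [h, Set.ncard_empty] at hN
      exact hN (dvd_zero p)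
    obtain ⟨x0, hx0⟩ := hne
    have hcol : ∀ x ∈ Nrm G hG inc v0, ∃ c : G.lineGraph.Coloring (Fin d),
        (c : G.edgeSet → Fin d) = x := fun x hx =>
      ⟨SimpleGraph.Coloring.mk x fun h => col_prp G inc h2 x hx.1 _ _ h, rfl⟩
    obtain ⟨c0, hc0⟩ := hcol x0 hx0
    have hsum : ∑ x ∈ hfin.toFinset, Abs.wt (Equiv.refl (Fin d)) inc x =
        ((Nrm G hG inc v0).ncard : ℤ) * Abs.wt (Equiv.refl (Fin d)) inc x0 := by
      rw [Finset.sum_congr rfl (g := fun _ => Abs.wt (Equiv.refl (Fin d)) inc x0) ?_,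
        Finset.sum_const, nsmul_eq_mul, Set.ncard_eq_toFinset_card _ hfin]
      intro x hx
      rw [Set.Finite.mem_toFinset] at hx
      obtain ⟨c, hc⟩ := hcol x hx
      have h5 := wt_kempe G inc h1 h2 h3 c c0 (hK c c0 (by rw [hc]; exact hx.2.2)
        (by rw [hc0]; exact hx0.2.2))
      rw [hc, hc0] at h5
      exact h5
    rw [hsum]
    have hu : IsUnit (Abs.wt (Equiv.refl (Fin d)) inc x0) := Abs.wt_unit _ _ _ hx0.1
    rw [hu.dvd_mul_right, Int.natCast_dvd_natCast]
    exact hN)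
  rw [Fintype.card_fin] at key
  exact key

/-- all the colourings are Kempe equivalent -/
theorem EL_kempe_all [Nonempty V] (hd : ∀ v, (G.neighborSet v).ncard = d)
    (hne : G.lineGraph.Colorable d)
    (hK : ∀ x y : G.lineGraph.Coloring (Fin d), Relation.EqvGen (Step G) x y) : EL.EL G d := by
  classical
  have hG : ∀ (a : (⊥ : Subgroup (Equiv.Perm V))) (u v : V),
      G.Adj (a • u) (a • v) ↔ G.Adj u v := by
    intro a u v
    rw [Subsingleton.elim a 1, one_smul, one_smul]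
  have hinv : ∀ x : G.edgeSet → Fin d, Inv G hG x := by
    intro x a
    refine ⟨1, fun e => ?_⟩
    rw [Subsingleton.elim a 1]
    have h5 : eact G hG 1 e = e := (eAct G hG).one_smul e
    rw [h5]
    rfl
  obtain ⟨p, hp1, hp⟩ := Nat.exists_infinite_primes ((Facs G hG d).ncard + 1)
  have := Fact.mk hp
  refine EL_kempe G hG p IsPGroup.of_bot hd (fun x y _ _ => hK x y) ?_
  intro hdvd
  obtain ⟨x0⟩ := hne
  obtain ⟨inc, h1, h2, h3⟩ := exists_inc' G hd
  have hpos : 0 < (Facs G hG d).ncard := by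
    have e1 := facs_eq G hG inc h1 h2 h3 (Classical.arbitrary V)
    refine (Set.ncard_pos ?_).2 ⟨_, x0, hinv _, rfl⟩
    rw [e1]
    exact (Set.toFinite _).image _
  have := Nat.le_of_dvd hpos hdvd
  omega

end

end Pool.Agent.TH347.KS
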