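import Pool.Agent.TH347.KS.Main

/-!
# Cubic graphs: Hamiltonian cycles and 1-factorizations modulo two
-/

set_option autoImplicit false

namespace Pool.Agent.TH347.KS

open Finset Pool.Agent.W426.LE Pool.Agent.W862.LE

/-! ### Three colours -/

/-- exchange of the two colours different from `i` -/
def pr (i : Fin 3) : Equiv.Perm (Fin 3) := Equiv.swap (i + 1) (i + 2)

lemma pr_eq_iff : ∀ i c : Fin 3, pr i c = i ↔ c = i := by decide
lemma pr_self : ∀ i : Fin 3, pr i i = i := by decide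
lemma pr_pr : ∀ i c : Fin 3, pr i (pr i c) = c := by decide
lemma pr_ne : ∀ i c : Fin 3, c ≠ i → pr i c ≠ c := by decide
lemma third' : ∀ i c a b : Fin 3, (c ≠ i ∧ a ≠ i ∧ a ≠ c ∧ b ≠ i ∧ b ≠ c) → a = b := by decide
lemma third (i c a b : Fin 3) (k1 : c ≠ i) (k2 : a ≠ i) (k3 : a ≠ c) (k4 : b ≠ i) (k5 : b ≠ c) :
    a = b := third' i c a b ⟨k1, k2, k3, k4, k5⟩
lemma cases3 : ∀ i m : Fin 3, m = i ∨ m = i + 1 ∨ m = i + 2 := by decide
lemma ne1 : ∀ i : Fin 3, i + 1 ≠ i := by decide
lemma ne2 : ∀ i : Fin 3, i + 2 ≠ i := by decide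
lemma ne12 : ∀ i : Fin 3, i + 1 ≠ i + 2 := by decide
lemma z2 : ∀ a b : ZMod 2, a + b = 1 → a ≠ b := by decide
lemma z2' : ∀ a b : ZMod 2, a + b = 0 → a = b := by decide
lemma z2'' : ∀ a b c : ZMod 2, a ≠ c → b ≠ c → a = b := by decide

section
variable {V : Type} (G : SimpleGraph V)

/-- Hamiltonian cycles: the spanning connected subgraphs with all degrees two -/
def HamC : Set (SimpleGraph V) :=
  {H | H ≤ G ∧ H.Connected ∧ ∀ v, (H.neighborSet v).ncard = 2}

/-- the graph of the edges whose colour is not `i` -/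
def Hg (x : G.edgeSet → Fin 3) (i : Fin 3) : SimpleGraph V where
  Adj u v := ∃ h : G.Adj u v, x ⟨s(u, v), h⟩ ≠ i
  symm := ⟨fun u v ⟨h, hx⟩ => ⟨h.symm, by
    have e1 : (⟨s(v, u), h.symm⟩ : G.edgeSet) = ⟨s(u, v), h⟩ := Subtype.ext Sym2.eq_swap
    rw [e1]
    exact hx⟩⟩
  loopless := ⟨fun _ ⟨h, _⟩ => G.irrefl h⟩

lemma Hg_le (x : G.edgeSet → Fin 3) (i : Fin 3) : Hg G x i ≤ G := fun _ _ ⟨h, _⟩ => h

lemma Hg_edge (x : G.edgeSet → Fin 3) (i : Fin 3) (e : G.edgeSet) :
    (e : Sym2 V) ∈ (Hg G x i).edgeSet ↔ x e ≠ i := by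
  obtain ⟨e, he⟩ := e
  induction e using Sym2.ind with
  | _ u v => exact ⟨fun ⟨_, h⟩ => h, fun h => ⟨he, h⟩⟩

lemma Hg_ext {x y : G.edgeSet → Fin 3} {i j : Fin 3} (h : ∀ e, x e = i ↔ y e = j) :
    Hg G x i = Hg G y j := by
  ext u v
  constructor
  · rintro ⟨h', hx⟩
    exact ⟨h', fun h5 => hx ((h _).2 h5)⟩
  · rintro ⟨h', hx⟩
    exact ⟨h', fun h5 => hx ((h _).1 h5)⟩

variable (inc : V → Fin 3 → G.edgeSet)
  (h1 : ∀ v i, v ∈ (inc v i : Sym2 V))
  (h2 : ∀ v (e : G.edgeSet), v ∈ (e : Sym2 V) → ∃ i, inc v i = e)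
  (h3 : ∀ v, Function.Injective (inc v)) (v0 : V)

open Classical in
include h1 h2 h3 in
lemma ncard_nb (H : SimpleGraph V) (hH : H ≤ G) (v : V) : (H.neighborSet v).ncard =
    (univ.filter (fun m : Fin 3 => (inc v m : Sym2 V) ∈ H.edgeSet)).card := by
  set o : Fin 3 → V := fun m => Sym2.Mem.other (h1 v m) with ho'
  have ho : ∀ m, s(v, o m) = (inc v m : Sym2 V) := fun m => Sym2.other_spec (h1 v m)
  have hset : H.neighborSet v =
      o '' ((univ.filter (fun m : Fin 3 => (inc v m : Sym2 V) ∈ H.edgeSet) : Finset (Fin 3)) :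
        Set (Fin 3)) := by
    ext w
    constructor
    · intro hw
      have hw' : H.Adj v w := hw
      obtain ⟨m, hm⟩ := h2 v ⟨s(v, w), hH hw'⟩ (Sym2.mem_mk_left _ _)
      have h5 : (inc v m : Sym2 V) = s(v, w) := congrArg Subtype.val hm
      refine ⟨m, ?_, ?_⟩
      · rw [mem_coe, mem_filter, h5]
        exact ⟨mem_univ _, hw'⟩
      · have h6 := ho m
        rw [h5] at h6
        exact Sym2.congr_right.1 h6
    · rintro ⟨m, hm, rfl⟩
      rw [mem_coe, mem_filter] at hm
      show H.Adj v (o m)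
      rw [← SimpleGraph.mem_edgeSet, ho m]
      exact hm.2
  rw [hset, Set.InjOn.ncard_image, Set.ncard_coe_finset]
  intro m _ m' _ hmm
  apply h3 v
  apply Subtype.ext
  rw [← ho m, ← ho m', hmm]

open Classical in
/-- all but one of the three values of an injective function are different from `i` -/
lemma card_ne (f : Fin 3 → Fin 3) (hf : Function.Bijective f) (i : Fin 3) :
    (univ.filter (fun m => f m ≠ i)).card = 2 := by
  obtain ⟨a, ha⟩ := hf.2 i
  have h5 : univ.filter (fun m => f m ≠ i) = univ.erase a := by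
    ext m
    rw [mem_filter, mem_erase]
    constructor
    · rintro ⟨-, h⟩
      exact ⟨fun h' => h (h' ▸ ha), mem_univ _⟩
    · rintro ⟨h, -⟩
      exact ⟨mem_univ _, fun h' => h (hf.1 (h'.trans ha.symm))⟩
  rw [h5, card_erase_of_mem (mem_univ a), card_univ, Fintype.card_fin]

/-- normalised proper colourings -/
def N3 : Set (G.edgeSet → Fin 3) := {x | Abs.Prp inc x ∧ ∀ i, x (inc v0 i) = i}

/-- the edges that are not in the component of `v0` -/
def far (H : SimpleGraph V) (v0 : V) (e : Sym2 V) : Prop := ∀ v ∈ e, ¬ H.Reachable v0 v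

open Classical in
/-- exchange of the colours different from `i` outside of the component of `v0` -/
noncomputable def flp (x : G.edgeSet → Fin 3) (i : Fin 3) : G.edgeSet → Fin 3 := fun e =>
  if far (Hg G x i) v0 e then pr i (x e) else x e

lemma flp_iff (x : G.edgeSet → Fin 3) (i : Fin 3) (e : G.edgeSet) :
    flp G v0 x i e = i ↔ x e = i := by
  unfold flp
  split_ifs
  · exact pr_eq_iff _ _
  · exact Iff.rfl

lemma Hg_flp (x : G.edgeSet → Fin 3) (i : Fin 3) : Hg G (flp G v0 x i) i = Hg G x i :=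
  Hg_ext G fun e => flp_iff G v0 x i e

lemma flp_flp (x : G.edgeSet → Fin 3) (i : Fin 3) : flp G v0 (flp G v0 x i) i = x := by
  classical
  funext e
  have h5 : flp G v0 (flp G v0 x i) i e =
      if far (Hg G (flp G v0 x i) i) v0 e then pr i (flp G v0 x i e) else flp G v0 x i e := rfl
  rw [h5, Hg_flp]
  by_cases hf : far (Hg G x i) v0 e
  · rw [if_pos hf]
    unfold flp
    rw [if_pos hf, pr_pr]
  · rw [if_neg hf]
    unfold flp
    rw [if_neg hf]

include h1 in
lemma flp_at (x : G.edgeSet → Fin 3) (i : Fin 3) (v : V) :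
    ((Hg G x i).Reachable v0 v → ∀ m, flp G v0 x i (inc v m) = x (inc v m)) ∧
    (¬ (Hg G x i).Reachable v0 v → ∀ m, flp G v0 x i (inc v m) = pr i (x (inc v m))) := by
  refine ⟨fun hr m => ?_, fun hr m => ?_⟩
  · unfold flp
    rw [if_neg]
    exact fun hf => hf v (h1 v m) hr
  · by_cases hx : x (inc v m) = i
    · rw [hx, pr_self]
      exact (flp_iff G v0 x i _).2 hx
    · unfold flp
      rw [if_pos]
      have ho : s(v, Sym2.Mem.other (h1 v m)) = (inc v m : Sym2 V) := Sym2.other_spec (h1 v m)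
      have hadj : (Hg G x i).Adj v (Sym2.Mem.other (h1 v m)) := by
        rw [← SimpleGraph.mem_edgeSet, ho]
        exact (Hg_edge G x i _).2 hx
      intro w hw hw'
      rw [← ho, Sym2.mem_iff] at hw
      rcases hw with rfl | rfl
      · exact hr hw'
      · exact hr (hw'.trans hadj.symm.reachable)

include h1 in
lemma flp_mem (x : G.edgeSet → Fin 3) (i : Fin 3) (hx : x ∈ N3 G inc v0) :
    flp G v0 x i ∈ N3 G inc v0 := by
  refine ⟨fun v => ?_, fun m => ?_⟩
  · by_cases hr : (Hg G x i).Reachable v0 v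
    · have h5 : (fun m => flp G v0 x i (inc v m)) = fun m => x (inc v m) :=
        funext ((flp_at G inc h1 v0 x i v).1 hr)
      rw [h5]
      exact hx.1 v
    · have h5 : (fun m => flp G v0 x i (inc v m)) = fun m => pr i (x (inc v m)) :=
        funext ((flp_at G inc h1 v0 x i v).2 hr)
      rw [h5]
      exact (pr i).bijective.comp (hx.1 v)
  · rw [(flp_at G inc h1 v0 x i v0).1 (SimpleGraph.Reachable.refl v0) m]
    exact hx.2 m

include h1 in
lemma flp_ne (x : G.edgeSet → Fin 3) (i : Fin 3) (hx : x ∈ N3 G inc v0)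
    (hc : ¬ (Hg G x i).Connected) : flp G v0 x i ≠ x := by
  intro heq
  apply hc
  rw [SimpleGraph.connected_iff_exists_forall_reachable]
  refine ⟨v0, fun v => ?_⟩
  by_contra hr
  obtain ⟨m, hm⟩ := (hx.1 v).2 (i + 1)
  have hm' : x (inc v m) = i + 1 := hm
  have h5 := (flp_at G inc h1 v0 x i v).2 hr m
  rw [heq] at h5
  exact pr_ne i _ (by rw [hm']; exact ne1 i) h5.symm

/-- the pairs with a connected graph -/
def Yc : Set ((G.edgeSet → Fin 3) × Fin 3) :=
  {q | q.1 ∈ N3 G inc v0 ∧ (Hg G q.1 q.2).Connected}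

/-- the pairs with a disconnected graph -/
def Yd : Set ((G.edgeSet → Fin 3) × Fin 3) :=
  {q | q.1 ∈ N3 G inc v0 ∧ ¬ (Hg G q.1 q.2).Connected}

variable [Finite V]

include h1 in
lemma even_Yd : ((Yd G inc v0).ncard : ZMod 2) = 0 := by
  classical
  have hfin : (Yd G inc v0).Finite := Set.toFinite _
  rw [Set.ncard_eq_toFinset_card _ hfin]
  have h5 : ((hfin.toFinset.card : ℕ) : ZMod 2) = ∑ _q ∈ hfin.toFinset, (1 : ZMod 2) := by
    rw [Finset.sum_const, nsmul_eq_mul, mul_one]
  rw [h5]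
  refine Finset.sum_involution (fun q _ => (flp G v0 q.1 q.2, q.2)) ?_ ?_ ?_ ?_
  · intro q _
    decide
  · intro q hq _
    rw [Set.Finite.mem_toFinset] at hq
    intro h6
    exact flp_ne G inc h1 v0 q.1 q.2 hq.1 hq.2 (congrArg Prod.fst h6)
  · intro q hq
    rw [Set.Finite.mem_toFinset] at hq ⊢
    refine ⟨flp_mem G inc h1 v0 _ _ hq.1, ?_⟩
    show ¬ (Hg G (flp G v0 q.1 q.2) q.2).Connected
    rw [Hg_flp]
    exact hq.2
  · intro q _
    show (flp G v0 (flp G v0 q.1 q.2) q.2, q.2) = q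
    rw [flp_flp]

lemma card_split : 3 * (N3 G inc v0).ncard = (Yc G inc v0).ncard + (Yd G inc v0).ncard := by
  classical
  have h5 : Yc G inc v0 ∪ Yd G inc v0 = (N3 G inc v0) ×ˢ (Set.univ : Set (Fin 3)) := by
    ext q
    constructor
    · rintro (h | h)
      · exact ⟨h.1, trivial⟩
      · exact ⟨h.1, trivial⟩
    · rintro ⟨h, -⟩
      by_cases hc : (Hg G q.1 q.2).Connected
      · exact Or.inl ⟨h, hc⟩
      · exact Or.inr ⟨h, hc⟩
  have h6 : Disjoint (Yc G inc v0) (Yd G inc v0) := by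
    rw [Set.disjoint_left]
    exact fun q h h' => h'.2 h.2
  rw [← Set.ncard_union_eq h6 (Set.toFinite _) (Set.toFinite _), h5, Set.ncard_prod,
    Set.ncard_univ, Nat.card_eq_fintype_card, Fintype.card_fin, mul_comm]

include h1 h2 h3 in
lemma Yc_injOn : Set.InjOn (fun q : (G.edgeSet → Fin 3) × Fin 3 => Hg G q.1 q.2)
    (Yc G inc v0) := by
  rintro ⟨x, i⟩ ⟨hx, hc⟩ ⟨y, j⟩ ⟨hy, -⟩ hxy
  have hH : Hg G x i = Hg G y j := hxy
  have hiff : ∀ e, x e = i ↔ y e = j := by
    intro e
    rw [← not_iff_not]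
    have e1 := Hg_edge G x i e
    rw [hH, Hg_edge] at e1
    exact e1.symm
  have hij : i = j := by
    have h5 := (hiff (inc v0 i)).1 (hx.2 i)
    have h6 : y (inc v0 i) = i := hy.2 i
    exact h6.symm.trans h5
  subst hij
  have hstep : ∀ v w, (Hg G x i).Adj v w → (∀ m, x (inc v m) = y (inc v m)) →
      ∀ m, x (inc w m) = y (inc w m) := by
    rintro v w ⟨hvw, hne⟩ hD n
    obtain ⟨m, hm⟩ := h2 v ⟨s(v, w), hvw⟩ (Sym2.mem_mk_left _ _)
    obtain ⟨m', hm'⟩ := h2 w ⟨s(v, w), hvw⟩ (Sym2.mem_mk_right _ _)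
    have e1 : x (inc w m') = y (inc w m') := by
      rw [hm', ← hm]
      exact hD m
    have e2 : x (inc w m') ≠ i := by
      rw [hm']
      exact hne
    by_cases hn : n = m'
    · rw [hn, e1]
    by_cases hi : x (inc w n) = i
    · rw [hi, (hiff _).1 hi]
    · have hi' : y (inc w n) ≠ i := fun h => hi ((hiff _).2 h)
      refine third i (x (inc w m')) _ _ e2 hi ?_ hi' ?_
      · exact fun h => hn ((hx.1 w).1 h)
      · rw [e1]
        exact fun h => hn ((hy.1 w).1 h)
  have hwalk : ∀ v w, (Hg G x i).Reachable v w → (∀ m, x (inc v m) = y (inc v m)) →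
      ∀ m, x (inc w m) = y (inc w m) := by
    rintro v w ⟨p⟩
    induction p with
    | nil => exact id
    | cons h _ ih => exact fun hD => ih (hstep _ _ h hD)
  have hxy' : x = y := by
    funext e
    obtain ⟨e, he⟩ := e
    induction e using Sym2.ind with
    | _ u v =>
      obtain ⟨m, hm⟩ := h2 u ⟨s(u, v), he⟩ (Sym2.mem_mk_left _ _)
      rw [← hm]
      exact hwalk v0 u (hc.preconnected v0 u) (fun m => (hx.2 m).trans (hy.2 m).symm) m
  rw [hxy']

include h1 h2 h3 in
/-- an alternating function on the edges of a Hamiltonian cycle -/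
lemma exists_z (H : SimpleGraph V) (hH : H ≤ G) (hc : H.Connected) (hev : Even (Nat.card V)) :
    ∃ z : G.edgeSet → ZMod 2, ∀ v, (∑ m : Fin 3, open Classical in
      if (inc v m : Sym2 V) ∈ H.edgeSet then z (inc v m) else 0) = 1 := by
  classical
  have := Fintype.ofFinite V
  let A : (G.edgeSet → ZMod 2) →ₗ[ZMod 2] (V → ZMod 2) :=
    { toFun := fun z v => ∑ m : Fin 3,
        if (inc v m : Sym2 V) ∈ H.edgeSet then z (inc v m) else 0
      map_add' := by
        intro z z'
        funext v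
        show (∑ m : Fin 3, if (inc v m : Sym2 V) ∈ H.edgeSet then (z + z') (inc v m) else 0) =
          (∑ m : Fin 3, if (inc v m : Sym2 V) ∈ H.edgeSet then z (inc v m) else 0) +
            ∑ m : Fin 3, if (inc v m : Sym2 V) ∈ H.edgeSet then z' (inc v m) else 0
        rw [← Finset.sum_add_distrib]
        refine Finset.sum_congr rfl fun m _ => ?_
        split_ifs
        · rfl
        · rw [add_zero]
      map_smul' := by
        intro c z
        funext v
        show (∑ m : Fin 3, if (inc v m : Sym2 V) ∈ H.edgeSet then (c • z) (inc v m) else 0) =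
          c * ∑ m : Fin 3, if (inc v m : Sym2 V) ∈ H.edgeSet then z (inc v m) else 0
        rw [Finset.mul_sum]
        refine Finset.sum_congr rfl fun m _ => ?_
        split_ifs
        · rfl
        · rw [mul_zero] }
  have hA : ∀ z v, A z v = ∑ m : Fin 3,
      if (inc v m : Sym2 V) ∈ H.edgeSet then z (inc v m) else 0 := fun z v => rfl
  by_contra hno
  have hnot : (fun _ : V => (1 : ZMod 2)) ∉ LinearMap.range A := by
    rintro ⟨z, hz⟩
    apply hno
    refine ⟨z, fun v => ?_⟩
    rw [← hA z v, hz]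
  obtain ⟨φ, hφ1, hφ2⟩ := Submodule.exists_dual_map_eq_bot_of_notMem hnot inferInstance
  have hφA : ∀ z, φ (A z) = 0 := by
    intro z
    have h5 : φ (A z) ∈ (LinearMap.range A).map φ := Submodule.mem_map_of_mem ⟨z, rfl⟩
    rw [hφ2] at h5
    exact h5
  set y : V → ZMod 2 := fun v => φ (fun j => if v = j then 1 else 0) with hy
  have hadj : ∀ u v, H.Adj u v → y u = y v := by
    intro u v huv
    set e : G.edgeSet := ⟨s(u, v), hH huv⟩ with he
    have hev' : ∀ w m, inc w m = e → w = u ∨ w = v := by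
      intro w m hm
      have h5 := h1 w m
      rw [hm] at h5
      exact Sym2.mem_iff.1 h5
    have h6 : A (fun e' => if e' = e then 1 else 0) =
        (fun j => if u = j then 1 else 0) + (fun j => if v = j then 1 else 0) := by
      funext w
      rw [hA]
      show _ = (if u = w then (1 : ZMod 2) else 0) + (if v = w then 1 else 0)
      by_cases hw : w ∈ (e : Sym2 V)
      · obtain ⟨m0, hm0⟩ := h2 w e hw
        rw [Finset.sum_eq_single m0]
        · rw [hm0, if_pos rfl, if_pos (show (e : Sym2 V) ∈ H.edgeSet from huv)]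
          have hw' : w = u ∨ w = v := Sym2.mem_iff.1 hw
          rcases hw' with rfl | rfl
          · rw [if_pos rfl, if_neg huv.ne', add_zero]
          · rw [if_neg huv.ne, if_pos rfl, zero_add]
        · intro m _ hm
          have : inc w m ≠ e := fun h => hm (h3 w (h.trans hm0.symm))
          rw [if_neg this]
          split_ifs <;> rfl
        · intro h
          exact absurd (mem_univ _) h
      · have hw' : ¬ (w = u ∨ w = v) := fun h => hw (Sym2.mem_iff.2 h)
        push Not at hw'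
        rw [if_neg hw'.1.symm, if_neg hw'.2.symm, add_zero]
        refine Finset.sum_eq_zero fun m _ => ?_
        have : inc w m ≠ e := fun h => hw (h ▸ h1 w m)
        rw [if_neg this]
        split_ifs <;> rfl
    have h7 := hφA (fun e' => if e' = e then 1 else 0)
    rw [h6, map_add] at h7
    exact z2' _ _ h7
  have hconst : ∀ u v, H.Reachable u v → y u = y v := by
    rintro u v ⟨p⟩
    induction p with
    | nil => rfl
    | cons h _ ih => exact (hadj _ _ h).trans ih
  apply hφ1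
  obtain ⟨u⟩ := hc.nonempty
  rw [LinearMap.pi_apply_eq_sum_univ φ]
  have h8 : ∀ v : V, (1 : ZMod 2) • φ (fun j => if v = j then 1 else 0) = y u := fun v => by
    rw [one_smul]
    exact hconst v u (hc.preconnected v u)
  rw [Finset.sum_congr rfl fun v _ => h8 v, Finset.sum_const, nsmul_eq_mul, card_univ,
    ← Nat.card_eq_fintype_card]
  obtain ⟨k, hk⟩ := hev
  rw [hk]
  push_cast
  have h9 : (k : ZMod 2) + k = 0 := CharTwo.add_self_eq_zero _
  rw [h9, zero_mul]

include h1 h2 h3 in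
lemma exists_col (H : SimpleGraph V) (hH : H ∈ HamC G) (hev : Even (Nat.card V)) :
    ∃ q ∈ Yc G inc v0, Hg G q.1 q.2 = H := by
  classical
  obtain ⟨hle, hc, hdeg⟩ := hH
  obtain ⟨z, hz⟩ := exists_z G inc h1 h2 h3 H hle hc hev
  have hcard : ∀ v, (univ.filter (fun m : Fin 3 => (inc v m : Sym2 V) ∈ H.edgeSet)).card = 2 :=
    fun v => by rw [← ncard_nb G inc h1 h2 h3 H hle v, hdeg v]
  have hone : ∀ v, ∃ a, (inc v a : Sym2 V) ∉ H.edgeSet ∧
      ∀ m, (inc v m : Sym2 V) ∉ H.edgeSet → m = a := by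
    intro v
    have h5 := Finset.card_filter_add_card_filter_not (s := (univ : Finset (Fin 3)))
      (fun m : Fin 3 => (inc v m : Sym2 V) ∈ H.edgeSet)
    rw [hcard v, card_univ, Fintype.card_fin] at h5
    have h6 : (univ.filter (fun m : Fin 3 => ¬ (inc v m : Sym2 V) ∈ H.edgeSet)).card = 1 := by
      omega
    obtain ⟨a, ha⟩ := Finset.card_eq_one.1 h6
    refine ⟨a, ?_, fun m hm => ?_⟩
    · have : a ∈ univ.filter (fun m : Fin 3 => ¬ (inc v m : Sym2 V) ∈ H.edgeSet) := by
        rw [ha]; exact mem_singleton_self a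
      exact (mem_filter.1 this).2
    · have : m ∈ univ.filter (fun m : Fin 3 => ¬ (inc v m : Sym2 V) ∈ H.edgeSet) :=
        mem_filter.2 ⟨mem_univ _, hm⟩
      rw [ha] at this
      exact mem_singleton.1 this
  have hdiff : ∀ v m m', m ≠ m' → (inc v m : Sym2 V) ∈ H.edgeSet →
      (inc v m' : Sym2 V) ∈ H.edgeSet → z (inc v m) ≠ z (inc v m') := by
    intro v m m' hne hm hm'
    apply z2
    have h5 : univ.filter (fun m : Fin 3 => (inc v m : Sym2 V) ∈ H.edgeSet) = {m, m'} := by
      symm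
      apply Finset.eq_of_subset_of_card_le
      · intro a ha
        rw [mem_insert, mem_singleton] at ha
        rw [mem_filter]
        rcases ha with rfl | rfl
        · exact ⟨mem_univ _, hm⟩
        · exact ⟨mem_univ _, hm'⟩
      · rw [hcard v, card_pair hne]
    have h6 := hz v
    rw [← Finset.sum_filter, h5, Finset.sum_pair hne] at h6
    exact h6
  obtain ⟨i, hi, hiu⟩ := hone v0
  have hin : ∀ m, m ≠ i → (inc v0 m : Sym2 V) ∈ H.edgeSet := by
    intro m hm
    by_contra h
    exact hm (hiu m h)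
  set x : G.edgeSet → Fin 3 := fun e => if (e : Sym2 V) ∈ H.edgeSet then
    (if z e = z (inc v0 (i + 1)) then i + 1 else i + 2) else i with hx
  have hx0 : ∀ e : G.edgeSet, (e : Sym2 V) ∉ H.edgeSet → x e = i := fun e he => by
    rw [hx]; exact if_neg he
  have hx1 : ∀ e : G.edgeSet, (e : Sym2 V) ∈ H.edgeSet → z e = z (inc v0 (i + 1)) →
      x e = i + 1 := fun e he hze => by
    rw [hx]; show (if _ then _ else _) = _; rw [if_pos he, if_pos hze]
  have hx2 : ∀ e : G.edgeSet, (e : Sym2 V) ∈ H.edgeSet → z e ≠ z (inc v0 (i + 1)) →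
      x e = i + 2 := fun e he hze => by
    rw [hx]; show (if _ then _ else _) = _; rw [if_pos he, if_neg hze]
  have hxne : ∀ e : G.edgeSet, (e : Sym2 V) ∈ H.edgeSet → x e ≠ i := by
    intro e he
    by_cases hze : z e = z (inc v0 (i + 1))
    · rw [hx1 e he hze]; exact ne1 i
    · rw [hx2 e he hze]; exact ne2 i
  have hprp : Abs.Prp inc x := by
    intro v
    refine Finite.injective_iff_bijective.1 ?_
    intro m m' hmm
    have hmm' : x (inc v m) = x (inc v m') := hmm
    by_contra hne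
    by_cases hm : (inc v m : Sym2 V) ∈ H.edgeSet
    · by_cases hm' : (inc v m' : Sym2 V) ∈ H.edgeSet
      · have h5 := hdiff v m m' hne hm hm'
        by_cases h6 : z (inc v m) = z (inc v0 (i + 1))
        · have h7 : z (inc v m') ≠ z (inc v0 (i + 1)) := fun h => h5 (h6.trans h.symm)
          rw [hx1 _ hm h6, hx2 _ hm' h7] at hmm'
          exact ne12 i hmm'
        · by_cases h7 : z (inc v m') = z (inc v0 (i + 1))
          · rw [hx2 _ hm h6, hx1 _ hm' h7] at hmm'
            exact ne12 i hmm'.symm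
          · exact h5 (z2'' _ _ _ h6 h7)
      · rw [hx0 _ hm'] at hmm'
        exact hxne _ hm hmm'
    · by_cases hm' : (inc v m' : Sym2 V) ∈ H.edgeSet
      · rw [hx0 _ hm] at hmm'
        exact hxne _ hm' hmm'.symm
      · obtain ⟨a, -, ha⟩ := hone v
        exact hne ((ha m hm).trans (ha m' hm').symm)
  have hnorm : ∀ m, x (inc v0 m) = m := by
    intro m
    rcases cases3 i m with rfl | rfl | rfl
    · exact hx0 _ hi
    · exact hx1 _ (hin _ (ne1 i)) rfl
    · refine hx2 _ (hin _ (ne2 i)) ?_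
      exact (hdiff v0 _ _ (ne12 i) (hin _ (ne1 i)) (hin _ (ne2 i))).symm
  have hHg : Hg G x i = H := by
    ext u v
    constructor
    · rintro ⟨h, hne⟩
      by_contra hH'
      exact hne (hx0 ⟨s(u, v), h⟩ hH')
    · intro h
      exact ⟨hle h, hxne ⟨s(u, v), hle h⟩ h⟩
  refine ⟨(x, i), ⟨⟨hprp, hnorm⟩, ?_⟩, hHg⟩
  show (Hg G x i).Connected
  rw [hHg]
  exact hc

include h1 h2 h3 in
lemma ham_eq (hev : Even (Nat.card V)) :
    HamC G = (fun q : (G.edgeSet → Fin 3) × Fin 3 => Hg G q.1 q.2) '' Yc G inc v0 := by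
  classical
  ext H
  constructor
  · intro hH
    obtain ⟨q, hq, hqH⟩ := exists_col G inc h1 h2 h3 v0 H hH hev
    exact ⟨q, hq, hqH⟩
  · rintro ⟨⟨x, i⟩, ⟨hx, hc⟩, rfl⟩
    refine ⟨Hg_le G x i, hc, fun v => ?_⟩
    show ((Hg G x i).neighborSet v).ncard = 2
    rw [ncard_nb G inc h1 h2 h3 _ (Hg_le G x i) v, ← card_ne (fun m => x (inc v m)) (hx.1 v) i]
    congr 1
    ext m
    rw [mem_filter, mem_filter, Hg_edge]

include h1 h2 h3 in
theorem parity (hev : Even (Nat.card V)) :
    ((N3 G inc v0).ncard : ZMod 2) = ((HamC G).ncard : ZMod 2) := by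
  rw [ham_eq G inc h1 h2 h3 v0 hev,
    Set.InjOn.ncard_image (Yc_injOn G inc h1 h2 h3 v0)]
  have h5 := congrArg (fun n : ℕ => (n : ZMod 2)) (card_split G inc v0)
  simp only [Nat.cast_mul, Nat.cast_add, even_Yd G inc h1 v0, add_zero] at h5
  rw [← h5]
  have h6 : ((3 : ℕ) : ZMod 2) = 1 := by decide
  rw [h6, one_mul]

lemma even_card_cubic (hd : ∀ v, (G.neighborSet v).ncard = 3) : Even (Nat.card V) := by
  classical
  have := Fintype.ofFinite V
  have h5 := G.even_card_odd_degree_vertices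
  have h6 : ∀ v, G.degree v = 3 := by
    intro v
    rw [← hd v, ← SimpleGraph.card_neighborSet_eq_degree, Set.ncard_eq_toFinset_card',
      Set.toFinset_card]
  have h7 : (univ.filter (fun v => Odd (G.degree v))) = (univ : Finset V) := by
    ext v
    simp only [mem_filter, mem_univ, true_and, iff_true, h6 v]
    decide
  rw [h7, card_univ, ← Nat.card_eq_fintype_card] at h5
  exact h5

/-- **cubic graphs with an odd number of Hamiltonian cycles** -/
theorem EL_odd [Nonempty V] (hd : ∀ v, (G.neighborSet v).ncard = 3)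
    (hodd : Odd (HamC G).ncard) : EL.EL G 3 := by
  classical
  have := Fintype.ofFinite V
  obtain ⟨inc, h1, h2, h3⟩ := exists_inc' G hd
  obtain ⟨v0⟩ := ‹Nonempty V›
  have hG : ∀ (a : (⊥ : Subgroup (Equiv.Perm V))) (u v : V),
      G.Adj (a • u) (a • v) ↔ G.Adj u v := by
    intro a u v
    rw [Subsingleton.elim a 1, one_smul, one_smul]
  have hfin : (N3 G inc v0).Finite := Set.toFinite _
  have := Fact.mk Nat.prime_two
  have key := gr_EL G inc h1 h2 h3 hG v0 2 IsPGroup.of_bot hfin.toFinset (fun x hx => by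
    rw [Set.Finite.mem_toFinset]
    refine ⟨fun h => ⟨h.2, fun a => ⟨1, fun e => ?_⟩⟩, fun h => ⟨hx, h.1⟩⟩
    rw [Subsingleton.elim a 1]
    have h5 : eact G hG 1 e = e := (eAct G hG).one_smul e
    rw [h5]
    rfl) (by
    intro hdvd
    have h5 : ((∑ x ∈ hfin.toFinset, Abs.wt (Equiv.refl (Fin 3)) inc x : ℤ) : ZMod 2) = 0 :=
      (ZMod.intCast_zmod_eq_zero_iff_dvd _ 2).2 hdvd
    rw [Int.cast_sum] at h5
    have h6 : ∀ x ∈ hfin.toFinset, ((Abs.wt (Equiv.refl (Fin 3)) inc x : ℤ) : ZMod 2) = 1 := by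
      intro x hx
      rw [Set.Finite.mem_toFinset] at hx
      rcases Int.isUnit_iff.1 (Abs.wt_unit (Equiv.refl (Fin 3)) inc x hx.1) with h | h
      · rw [h]; rfl
      · rw [h]; rfl
    rw [Finset.sum_congr rfl h6, Finset.sum_const, nsmul_eq_mul, mul_one,
      ← Set.ncard_eq_toFinset_card _ hfin,
      parity G inc h1 h2 h3 v0 (even_card_cubic G hd), (ZMod.natCast_eq_one_iff_odd).2 hodd] at h5
    exact one_ne_zero h5)
  rw [Fintype.card_fin] at key
  exact key

end

end Pool.Agent.TH347.KS
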